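import Pool.Agent.KS6_77.SP.Main

/-!
# MP_3285df_ag, Q1: `D = 111 L - 36 E₁ - 35 (E₂ + ⋯ + E₁₀)` is strictly positive on every curve

Let `p_j = (a_j : b_j : 1)`, `j = 0, …, 9`, be ten generic points of `ℙ²` over a field `K` of
arbitrary characteristic, i.e. the twenty coordinates are algebraically independent over the prime
field of `K`.  If a nonzero form `F` of degree `t > 0` vanishes to order `≥ m_j` at `p_j`, then for
every `i`

  `35 (m_0 + ⋯ + m_9) + m_i < 111 t`.

In other words `D · C > 0` for every curve `C` on the blow-up although `D² = 0`: the divisor `D` is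
strictly nef, spans an extremal ray of the nef cone, and no positive multiple of it is effective.
-/

open MvPolynomial

namespace Pool.Agent.Results.MP_3285df_ag.StrictlyPositive

/-- The homogeneous ideal of the point `(a : b : 1)` of the projective plane in the coordinate ring
`K[X₀, X₁, X₂]`; a form vanishes to order `≥ m` at the point iff it lies in the `m`-th power. -/
noncomputable def pointIdeal {K : Type*} [Field K] (a b : K) : Ideal (MvPolynomial (Fin 3) K) :=
  Ideal.span {X 0 - C a * X 2, X 1 - C b * X 2}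

theorem exists_le_sum {n : ℕ} (f : Fin n → ℕ) (N : ℕ) (h : N ≤ ∑ j, f j) :
    ∃ g : Fin n → ℕ, (∀ j, g j ≤ f j) ∧ ∑ j, g j = N := by
  obtain ⟨d, hd⟩ := Nat.exists_eq_add_of_le h
  induction d generalizing f with
  | zero => exact ⟨f, fun j => le_rfl, by omega⟩
  | succ d ih =>
    have h1 : ∃ j, f j ≠ 0 := by
      by_contra hc
      push Not at hc
      rw [Finset.sum_eq_zero (fun j _ => hc j)] at hd
      omega
    obtain ⟨j, hj⟩ := h1
    have h2 : ∑ i, Function.update f j (f j - 1) i + 1 = ∑ i, f i := by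
      rw [Finset.sum_update_of_mem (Finset.mem_univ j), ← Finset.add_sum_erase _ _ (Finset.mem_univ j)]
      rw [Finset.sdiff_singleton_eq_erase]
      omega
    obtain ⟨g, hg, hg'⟩ := ih (Function.update f j (f j - 1)) (by omega) (by omega)
    refine ⟨g, fun i => (hg i).trans ?_, hg'⟩
    by_cases hij : i = j
    · subst hij
      rw [Function.update_self]
      omega
    · rw [Function.update_of_ne hij]

/-- Forms of degree `3 δ`. -/
theorem forms {K : Type*} [Field K] (a b : Fin 10 → K)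
    (hab : AlgebraicIndependent (⊥ : Subfield K) (Sum.elim a b)) (δ : ℕ) (hδ : 0 < δ)
    (F : MvPolynomial (Fin 3) K) (hF : F.IsHomogeneous (3 * δ)) (m : Fin 10 → ℕ)
    (hm : ∀ j, F ∈ pointIdeal (a j) (b j) ^ m j) (hsum : ∑ i, m i + 1 ≤ 10 * δ)
    (hcon : 333 * (δ : ℤ) ≤ 35 * (∑ i, (m i : ℤ)) + m 0) : F = 0 := by
  have hv : ∀ i : Fin 10, Pool.Agent.H957R2.SE.Van (3 * δ) (m i)
      (fun p : ℕ × ℕ => F.coeff (Finsupp.single 0 p.1 + Finsupp.single 1 p.2
      + Finsupp.single 2 (3 * δ - p.1 - p.2))) (a i) (b i) 1 := by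
    intro i
    exact Pool.Agent.H957R2.SE.Van.of_ptIdeal _ _ _ _ F hF (hm i)
  have htr : Transcendental (⊥ : Subfield K) (a 0) := hab.transcendental (Sum.inl 0)
  have ha0 : a 0 ≠ 0 := by
    intro h0
    apply htr
    rw [h0]
    exact isAlgebraic_zero
  obtain ⟨P, hP, hP2⟩ := Pool.Agent.KS6_77.SP.special' (Units.mk0 (a 0) ha0) (by
    intro i hi h1
    apply htr
    have h2 : (Units.mk0 (a 0) ha0) ^ i.natAbs = 1 := by
      rcases Int.natAbs_eq i with h3 | h3
      · rw [h3] at h1; rwa [zpow_natCast] at h1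
      · rw [h3, zpow_neg, inv_eq_one] at h1; rwa [zpow_natCast] at h1
    have h4 : a 0 ^ i.natAbs = 1 := by
      have := congrArg Units.val h2
      simpa using this
    refine ⟨Polynomial.X ^ i.natAbs - 1, ?_, ?_⟩
    · have : (Polynomial.X ^ i.natAbs - 1 : Polynomial (⊥ : Subfield K))
          = Polynomial.X ^ i.natAbs - Polynomial.C 1 := by rw [map_one]
      rw [this]
      exact Polynomial.X_pow_sub_C_ne_zero (Int.natAbs_pos.mpr hi) 1
    · simp [h4])
  have key := Pool.Agent.H957R2.SE.descent (F := (⊥ : Subfield K))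
    (R := Polynomial (PowerSeries K)) a b hab P hP (3 * δ) m (hP2 δ hδ m hsum hcon) _ hv
  ext d
  rw [coeff_zero]
  by_contra hd
  have h1 : d.degree = 3 * δ := by
    rw [Finsupp.degree_eq_weight_one]; exact hF hd
  rw [Finsupp.degree_eq_sum, Fin.sum_univ_three] at h1
  have h2 := key (d 0, d 1) (by rw [Pool.Agent.H957R2.SE.mem_tri]; simp only; omega)
  apply hd
  rw [← h2]
  congr 1
  ext i
  have h3 : 3 * δ - d 0 - d 1 = d 2 := by omega
  fin_cases i
  · simp
  · simp
  · simp [h3]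

theorem main {K : Type*} [Field K] (a b : Fin 10 → K)
    (hab : AlgebraicIndependent (⊥ : Subfield K) (Sum.elim a b)) (t : ℕ) (ht : 0 < t)
    (F : MvPolynomial (Fin 3) K) (hF : F.IsHomogeneous t) (hF0 : F ≠ 0) (m : Fin 10 → ℕ)
    (hm : ∀ j, F ∈ pointIdeal (a j) (b j) ^ m j) : 35 * ∑ j, m j + m 0 < 111 * t := by
  by_contra hcon
  push Not at hcon
  have hF9 : (F ^ 9).IsHomogeneous (3 * (3 * t)) := by
    have := hF.pow 9
    rwa [show t * 9 = 3 * (3 * t) by ring] at this
  have hm9 : ∀ j, F ^ 9 ∈ pointIdeal (a j) (b j) ^ (9 * m j) := by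
    intro j
    rw [mul_comm, pow_mul]
    exact Ideal.pow_mem_pow (hm j) 9
  apply hF0
  apply eq_zero_of_pow_eq_zero (n := 9)
  by_cases hs : 9 * ∑ j, m j + 1 ≤ 10 * (3 * t)
  · refine forms a b hab (3 * t) (by omega) (F ^ 9) hF9 (fun j => 9 * m j) hm9 ?_ ?_
    · rw [← Finset.mul_sum]
      exact hs
    · push_cast
      rw [← Finset.mul_sum]
      have : (111 * t : ℤ) ≤ 35 * ∑ j, (m j : ℤ) + m 0 := by exact_mod_cast hcon
      linarith
  · obtain ⟨g, hg, hg'⟩ := exists_le_sum (fun j => 9 * m j) (10 * (3 * t) - 1) (by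
      rw [← Finset.mul_sum]
      omega)
    refine forms a b hab (3 * t) (by omega) (F ^ 9) hF9 g
      (fun j => Ideal.pow_le_pow_right (hg j) (hm9 j)) ?_ ?_
    · rw [hg']
      omega
    · have h1 : (∑ i, (g i : ℤ)) = 30 * t - 1 := by
        have : ((∑ i, g i : ℕ) : ℤ) = 30 * t - 1 := by
          rw [hg']
          omega
        exact_mod_cast this
      rw [h1]
      push_cast
      have : (0 : ℤ) ≤ g 0 := by positivity
      have : (1 : ℤ) ≤ t := by exact_mod_cast ht
      linarith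

theorem result {K : Type*} [Field K] (a b : Fin 10 → K)
    (hab : AlgebraicIndependent (⊥ : Subfield K) (Sum.elim a b)) (t : ℕ) (ht : 0 < t)
    (F : MvPolynomial (Fin 3) K) (hF : F.IsHomogeneous t) (hF0 : F ≠ 0) (m : Fin 10 → ℕ)
    (hm : ∀ j, F ∈ pointIdeal (a j) (b j) ^ m j) (i : Fin 10) :
    35 * ∑ j, m j + m i < 111 * t := by
  let σ : Fin 10 ≃ Fin 10 := Equiv.swap 0 i
  have hab' : AlgebraicIndependent (⊥ : Subfield K) (Sum.elim (a ∘ σ) (b ∘ σ)) := by
    have h1 : (Sum.elim (a ∘ σ) (b ∘ σ)) = Sum.elim a b ∘ Sum.map σ σ := by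
      funext x
      rcases x with x | x <;> rfl
    rw [h1]
    exact hab.comp _ (Sum.map_injective.mpr ⟨σ.injective, σ.injective⟩)
  have h := main (a ∘ σ) (b ∘ σ) hab' t ht F hF hF0 (m ∘ σ) (fun j => hm (σ j))
  have h2 : ∑ j, (m ∘ σ) j = ∑ j, m j := Equiv.sum_comp σ m
  have h3 : (m ∘ σ) 0 = m i := by
    show m (σ 0) = m i
    rw [Equiv.swap_apply_left]
  rwa [h2, h3] at h

end Pool.Agent.Results.MP_3285df_ag.StrictlyPositive
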